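import Mathlib

set_option autoImplicit false

namespace Pool.Agent.Lib.MP_0edf05_co.CycleProductBound

open Finset SimpleGraph

universe u

/-- The distance `d(a, b)` of an unordered pair `{a, b}` of vertices. -/
noncomputable def pairDist {V : Type u} (G : SimpleGraph V) : Sym2 V → ℕ :=
  Sym2.lift ⟨fun a b => G.dist a b, fun _ _ => G.dist_comm⟩

/-- The average distance `2 / (n (n - 1)) * ∑ d(a, b)`, the sum running over all unordered pairs
`{a, b}` of distinct vertices. -/
noncomputable def avgDist {V : Type u} [Fintype V] [DecidableEq V] (G : SimpleGraph V) : ℝ :=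
  2 / ((Fintype.card V : ℝ) * ((Fintype.card V : ℝ) - 1)) *
    ∑ e : Sym2 V with ¬ e.IsDiag, (pairDist G e : ℝ)

/-- the double sum is twice the sum over unordered pairs -/
lemma sum_dist_eq {V : Type u} [Fintype V] [DecidableEq V] (G : SimpleGraph V) :
    ∑ a : V, ∑ b : V, G.dist a b = 2 * ∑ e : Sym2 V with ¬ e.IsDiag, pairDist G e := by
  have h1 : ∑ a : V, ∑ b : V, G.dist a b = ∑ x : V × V, pairDist G s(x.1, x.2) := by
    rw [Fintype.sum_prod_type]
    rfl
  have h2 : ∑ x : V × V, pairDist G s(x.1, x.2)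
      = ∑ x : V × V with x.1 ≠ x.2, pairDist G s(x.1, x.2) := by
    rw [Finset.sum_filter]
    apply Finset.sum_congr rfl
    intro x _
    split_ifs with h
    · rfl
    · have : x.1 = x.2 := not_not.mp h
      simp [pairDist, this]
  rw [h1, h2]
  have h3 : ∑ x : V × V with x.1 ≠ x.2, pairDist G s(x.1, x.2)
      = ∑ e : Sym2 V with ¬ e.IsDiag, ∑ x ∈ (Finset.univ.filter (fun x : V × V => x.1 ≠ x.2)).filter
          (fun x => s(x.1, x.2) = e), pairDist G s(x.1, x.2) := by
    rw [Finset.sum_fiberwise_of_maps_to]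
    intro x hx
    simp at hx ⊢
    exact hx
  rw [h3, Finset.mul_sum]
  apply Finset.sum_congr rfl
  intro e he
  induction e using Sym2.ind with
  | _ a b =>
    simp only [Finset.mem_filter, Finset.mem_univ, true_and, Sym2.mk_isDiag_iff] at he
    have hfib : (Finset.univ.filter (fun x : V × V => x.1 ≠ x.2)).filter
          (fun x => s(x.1, x.2) = s(a, b)) = {(a, b), (b, a)} := by
      ext ⟨x, y⟩
      simp only [Finset.mem_filter, Finset.mem_univ, true_and, Finset.mem_insert,
        Finset.mem_singleton, Prod.mk.injEq, Sym2.eq_iff]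
      constructor
      · rintro ⟨_, h⟩
        exact h
      · rintro (⟨rfl, rfl⟩ | ⟨rfl, rfl⟩)
        · exact ⟨he, Or.inl ⟨rfl, rfl⟩⟩
        · exact ⟨fun h => he h.symm, Or.inr ⟨rfl, rfl⟩⟩
    rw [hfib, Finset.sum_pair]
    · have : pairDist G s(b, a) = pairDist G s(a, b) := by rw [Sym2.eq_swap]
      simp only [this]
      ring
    · intro h
      simp only [Prod.mk.injEq] at h
      exact he h.1

/-- `∑_{m < g} min m (g - m) = ⌊g²/4⌋` -/
lemma sum_min (g : ℕ) : ∑ m ∈ range g, min m (g - m) = g ^ 2 / 4 := by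
  induction g using Nat.strong_induction_on with
  | _ g ih =>
    match g, ih with
    | 0, _ => simp
    | 1, _ => simp
    | (g + 2), ih =>
      have h := ih g (by omega)
      rw [Finset.sum_range_succ']
      have h1 : ∑ k ∈ range (g + 1), min (k + 1) (g + 2 - (k + 1))
          = ∑ k ∈ range (g + 1), (min k (g - k) + 1) := by
        apply Finset.sum_congr rfl
        intro k hk
        rw [Finset.mem_range] at hk
        omega
      rw [h1, Finset.sum_add_distrib, Finset.sum_range_succ, h]
      simp only [tsub_self, Finset.sum_const, Finset.card_range]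
      have h2 : (g + 2) ^ 2 = g ^ 2 + (g + 1) * 4 := by ring
      rw [h2, Nat.add_mul_div_right _ _ (by norm_num)]
      simp

/-- cyclic distance on `ZMod g` -/
def cyc {g : ℕ} (a b : ZMod g) : ℕ := min (b - a).val (a - b).val

lemma sum_cyc_right {g : ℕ} [NeZero g] (a : ZMod g) : ∑ b : ZMod g, cyc a b = g ^ 2 / 4 := by
  have h1 : ∑ b : ZMod g, cyc a b = ∑ b : ZMod g, cyc 0 b := by
    rw [← Equiv.sum_comp (Equiv.addRight a)]
    apply Finset.sum_congr rfl
    intro b _
    simp [cyc]
  rw [h1, ← sum_min g]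
  have h2 : ∑ b : ZMod g, cyc 0 b = ∑ b : ZMod g, min b.val (g - b.val) := by
    apply Finset.sum_congr rfl
    intro b _
    simp only [cyc, sub_zero, zero_sub]
    rw [ZMod.neg_val]
    split_ifs with hb
    · simp [hb]
    · rfl
  rw [h2]
  refine Finset.sum_bij (fun (b : ZMod g) _ => b.val) ?_ ?_ ?_ ?_
  · intro b _
    exact Finset.mem_range.mpr (ZMod.val_lt b)
  · intro b _ c _ h
    exact ZMod.val_injective g h
  · intro m hm
    exact ⟨(m : ZMod g), Finset.mem_univ _, ZMod.val_cast_of_lt (Finset.mem_range.mp hm)⟩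
  · intro b _
    rfl

lemma cyc_le_half {g : ℕ} [NeZero g] (a b : ZMod g) : cyc a b ≤ g / 2 := by
  unfold cyc
  have : a - b = -(b - a) := by ring
  rw [this, ZMod.neg_val]
  split_ifs with h
  · simp
  · have := ZMod.val_lt (b - a)
    omega

/-- distances along a closed sequence of adjacent vertices -/
lemma dist_le_cyc {V : Type u} {G : SimpleGraph V} (hG : G.Connected) {g : ℕ} [NeZero g]
    (c : ZMod g → V) (hc : ∀ i, G.Adj (c i) (c (i + 1))) (a b : ZMod g) :
    G.dist (c a) (c b) ≤ cyc a b := by
  have key : ∀ (m : ℕ) (a : ZMod g), G.dist (c a) (c (a + m)) ≤ m := by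
    intro m
    induction m with
    | zero => intro a; simp
    | succ m ih =>
      intro a
      have h1 : G.dist (c (a + m)) (c (a + m + 1)) = 1 := by
        rw [dist_eq_one_iff_adj]
        exact hc _
      have h2 := hG.dist_triangle (u := c a) (v := c (a + m)) (w := c (a + m + 1))
      have h3 : a + ((m + 1 : ℕ) : ZMod g) = a + m + 1 := by push_cast; ring
      rw [h3]
      have := ih a
      omega
  have h1 : G.dist (c a) (c b) ≤ (b - a).val := by
    have := key (b - a).val a
    rwa [ZMod.natCast_zmod_val, add_sub_cancel] at this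
  have h2 : G.dist (c a) (c b) ≤ (a - b).val := by
    rw [SimpleGraph.dist_comm]
    have := key (a - b).val b
    rwa [ZMod.natCast_zmod_val, add_sub_cancel] at this
  exact le_min h1 h2

/-- parametrisation of a shortest cycle -/
lemma exists_cycle_param {V : Type u} {G : SimpleGraph V} (hcyc : ¬ G.IsAcyclic) :
    3 ≤ G.girth ∧ ∃ c : ZMod G.girth → V, Function.Injective c ∧ ∀ i, G.Adj (c i) (c (i + 1)) := by
  have h3 := three_le_girth hcyc
  refine ⟨h3, ?_⟩
  obtain ⟨a, w, hw, hl⟩ := exists_girth_eq_length.mpr hcyc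
  have : NeZero G.girth := ⟨by omega⟩
  have : Fact (1 < G.girth) := ⟨by omega⟩
  refine ⟨fun i => w.getVert i.val, ?_, ?_⟩
  · intro i j hij
    have hi := ZMod.val_lt i
    have hj := ZMod.val_lt j
    have := hw.getVert_injOn' (x₁ := i.val) (x₂ := j.val) (by simp; omega) (by simp; omega) hij
    exact ZMod.val_injective _ this
  · intro i
    have hi := ZMod.val_lt i
    have hadj := w.adj_getVert_succ (i := i.val) (by omega)
    by_cases h : i.val + 1 < G.girth
    · have : (i + 1).val = i.val + 1 := by
        rw [ZMod.val_add, ZMod.val_one, Nat.mod_eq_of_lt h]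
      simp only [this]
      exact hadj
    · have h' : i.val + 1 = G.girth := by omega
      have : (i + 1).val = 0 := by
        rw [ZMod.val_add, ZMod.val_one, h', Nat.mod_self]
      simp only [this]
      have e1 : w.getVert (i.val + 1) = w.getVert 0 := by
        rw [h', w.getVert_zero, hl, w.getVert_length]
      rw [e1] at hadj
      exact hadj

/-- level sums -/
lemma sum_levels {T : Type u} [DecidableEq T] (s : Finset T) (f : T → ℕ)
    (h1 : ∀ x ∈ s, 1 ≤ f x) (h2 : ∀ x ∈ s, 2 ≤ f x → ∃ y ∈ s, f y + 1 = f x) :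
    2 * ∑ x ∈ s, f x ≤ s.card * (s.card + 1) := by
  induction hk : s.card generalizing s with
  | zero =>
    rw [Finset.card_eq_zero] at hk
    simp [hk]
  | succ k ih =>
    have hne : s.Nonempty := by
      rw [← Finset.card_pos]; omega
    obtain ⟨m, hm, hmax⟩ := Finset.exists_max_image s f hne
    have hcard : (s.erase m).card = k := by
      rw [Finset.card_erase_of_mem hm]; omega
    have hfm : f m ≤ s.card := by
      -- all values 1..f m are attained
      have hsub : ∀ j, j < f m → ∃ x ∈ s, f x = f m - j := by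
        intro j
        induction j with
        | zero => intro _; exact ⟨m, hm, by simp⟩
        | succ j ihj =>
          intro hj
          obtain ⟨x, hx, hfx⟩ := ihj (by omega)
          obtain ⟨y, hy, hfy⟩ := h2 x hx (by omega)
          exact ⟨y, hy, by omega⟩
      have : Finset.Icc 1 (f m) ⊆ s.image f := by
        intro j hj
        rw [Finset.mem_Icc] at hj
        obtain ⟨x, hx, hfx⟩ := hsub (f m - j) (by omega)
        exact Finset.mem_image.mpr ⟨x, hx, by omega⟩
      have h := Finset.card_le_card this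
      simp only [Nat.card_Icc, Nat.add_sub_cancel] at h
      exact h.trans Finset.card_image_le
    have hih := ih (s.erase m) (fun x hx => h1 x (Finset.mem_of_mem_erase hx))
      (by
        intro x hx hfx
        have hxs := Finset.mem_of_mem_erase hx
        obtain ⟨y, hy, hfy⟩ := h2 x hxs hfx
        refine ⟨y, Finset.mem_erase.mpr ⟨?_, hy⟩, hfy⟩
        rintro rfl
        have := hmax x hxs
        omega) hcard
    rw [← Finset.add_sum_erase s f hm, hk] at *
    nlinarith




lemma norm_step {m : ℕ} (x : ZMod (m + 3)) :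
    min (x + 1).val (-(x + 1)).val ≤ min x.val (-x).val + 1 := by
  have hF : Fact (1 < m + 3) := ⟨by omega⟩
  have h1 : (x + 1).val ≤ x.val + 1 := by
    have := ZMod.val_add_le x 1
    rwa [ZMod.val_one] at this
  by_cases hx : x = 0
  · subst hx
    simp only [neg_zero, ZMod.val_zero, min_self, zero_add]
    exact (min_le_left _ _).trans (by rw [ZMod.val_one])
  · have h2 : (-(x + 1)).val ≤ (-x).val + 1 := by
      have e : -(x + 1) = -x - 1 := by ring
      have h3 : (1 : ZMod (m + 3)).val ≤ (-x).val := by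
        rw [ZMod.val_one]
        have : (-x).val ≠ 0 := by
          rw [Ne, ZMod.val_eq_zero, neg_eq_zero]
          exact hx
        omega
      rw [e, ZMod.val_sub h3]
      omega
    omega

/-- the cyclic distance changes by at most one along an edge of the cycle graph -/
lemma cyc_step {m : ℕ} (i j k : ZMod (m + 3)) (h : (j - k).val = 1 ∨ (k - j).val = 1) :
    cyc i k ≤ cyc i j + 1 := by
  have hF : Fact (1 < m + 3) := ⟨by omega⟩
  have hval : ∀ z : ZMod (m + 3), z.val = 1 → z = 1 := by
    intro z hz
    apply ZMod.val_injective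
    rw [hz, ZMod.val_one]
  unfold cyc
  rcases h with h | h
  · have h1 := hval _ h
    have e1 : i - k = (i - j) + 1 := by rw [← h1]; ring
    have e2 : k - i = -((i - j) + 1) := by rw [← h1]; ring
    have e3 : j - i = -(i - j) := by ring
    rw [e1, e2, e3, min_comm, min_comm (-(i - j)).val]
    exact norm_step _
  · have h1 := hval _ h
    have e1 : k - i = (j - i) + 1 := by rw [← h1]; ring
    have e2 : i - k = -((j - i) + 1) := by rw [← h1]; ring
    have e3 : i - j = -(j - i) := by ring
    rw [e1, e2, e3]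
    exact norm_step _

lemma cyc_le_walk {m : ℕ} : ∀ (i j : ZMod (m + 3)) (w : (cycleGraph (m + 3)).Walk i j),
    cyc i j ≤ w.length := by
  intro i j w
  have key : ∀ (j l : Fin (m + 3)) (w : (cycleGraph (m + 3)).Walk j l), 
      ∀ i : ZMod (m + 3), cyc i (l : ZMod (m + 3)) ≤ cyc i (j : ZMod (m + 3)) + w.length := by
    intro j l w
    induction w with
    | nil => intro i; simp
    | cons hadj p ih =>
      intro i
      rw [cycleGraph_adj'] at hadj
      have := cyc_step (m := m) i _ _ hadj
      have := ih i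
      simp only [Walk.length_cons]
      omega
  have := key i j w i
  have h0 : cyc i i = 0 := by simp [cyc]
  rw [h0] at this
  simpa using this

lemma dist_cycleGraph {m : ℕ} (i j : Fin (m + 3)) :
    (cycleGraph (m + 3)).dist i j = cyc (g := m + 3) i j := by
  have hF : Fact (1 < m + 3) := ⟨by omega⟩
  have hconn : (cycleGraph (m + 3)).Connected := cycleGraph_connected
  apply le_antisymm
  · apply dist_le_cyc hconn (fun i : ZMod (m + 3) => (i : Fin (m + 3)))
    intro i
    apply cycleGraph_adj'.mpr
    right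
    have : (i + 1 - i : ZMod (m + 3)).val = 1 := by
      rw [add_sub_cancel_left, ZMod.val_one]
    exact this
  · obtain ⟨w, hw⟩ := hconn.exists_walk_length_eq_dist i j
    rw [← hw]
    exact cyc_le_walk _ _ w

/-- every cycle of the cycle graph has full length -/
lemma le_length_of_isCycle_cycleGraph {m : ℕ} {a : Fin (m + 3)}
    (w : (cycleGraph (m + 3)).Walk a a) (hw : w.IsCycle) : m + 3 ≤ w.length := by
  have hconn : (cycleGraph (m + 3)).Connected := cycleGraph_connected
  have hclosed : ∀ x y, (cycleGraph (m + 3)).Adj x y → x ∈ w.support → y ∈ w.support := by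
    intro x y hxy hx
    have h1 := hw.ncard_neighborSet_toSubgraph_eq_two hx
    have hsub : w.toSubgraph.neighborSet x ⊆ (cycleGraph (m + 3)).neighborSet x :=
      Subgraph.neighborSet_subset _ _
    have h2 : ((cycleGraph (m + 3)).neighborSet x).ncard = 2 := by
      rw [Set.ncard_eq_toFinset_card', Set.toFinset_card, card_neighborSet_eq_degree]
      exact cycleGraph_degree_three_le
    have heq := Set.eq_of_subset_of_ncard_le hsub (by rw [h1, h2])
    have hy : y ∈ w.toSubgraph.neighborSet x := by
      rw [heq]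
      exact hxy
    have := w.toSubgraph.neighborSet_subset_verts x hy
    rwa [Walk.mem_verts_toSubgraph] at this
  have hall : ∀ y, y ∈ w.support := by
    intro y
    obtain ⟨p⟩ := hconn.preconnected a y
    have : ∀ (x y : Fin (m + 3)) (p : (cycleGraph (m + 3)).Walk x y), x ∈ w.support → y ∈ w.support := by
      intro x y p
      induction p with
      | nil => exact id
      | cons h p ih => intro hx; exact ih (hclosed _ _ h hx)
    exact this a y p w.start_mem_support
  have htail : ∀ y, y ∈ w.support.tail := by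
    intro y
    have := hall y
    rw [Walk.mem_support_iff] at this
    rcases this with rfl | h
    · exact Walk.end_mem_tail_support hw.not_nil
    · exact h
  have hcard : (Finset.univ : Finset (Fin (m + 3))).card ≤ w.support.tail.toFinset.card := by
    apply Finset.card_le_card
    intro y _
    rw [List.mem_toFinset]
    exact htail y
  rw [Finset.card_univ, Fintype.card_fin] at hcard
  have h4 := List.toFinset_card_le w.support.tail
  have h5 : w.support.tail.length = w.length := by
    rw [List.length_tail, Walk.length_support, Nat.add_sub_cancel]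
  omega


/-- numerical inequality when the graph has vertices off the shortest cycle -/
lemma numeric (g k R D : ℕ) (hg : 3 ≤ g) (hk : 1 ≤ k) (hR : 2 * R ≤ k * (k + 1))
    (hD : D ≤ g * (g ^ 2 / 4) + 2 * (k * (g ^ 2 / 4) + g * R) + k * (k - 1) * (g / 2)
      + 2 * ((k - 1) * R)) :
    g * D < (g + k) ^ 2 * ((g + k) ^ 2 / 4) := by
  obtain ⟨j, rfl⟩ : ∃ j, k = j + 1 := ⟨k - 1, by omega⟩
  simp only [Nat.add_sub_cancel] at hD
  have hS : 4 * (g ^ 2 / 4) ≤ g ^ 2 := Nat.mul_div_le _ _
  have hH : 2 * (g / 2) ≤ g := Nat.mul_div_le _ _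
  have hN : (g + (j + 1)) ^ 2 ≤ 4 * ((g + (j + 1)) ^ 2 / 4) + 1 := by
    have hmod : (g + (j + 1)) ^ 2 % 4 ≤ 1 := by
      have : ∀ x : ℕ, x ^ 2 % 4 ≤ 1 := by
        intro x
        rcases Nat.even_or_odd' x with ⟨y, rfl | rfl⟩
        · have : (2 * y) ^ 2 = 4 * y ^ 2 := by ring
          rw [this]; simp
        · have : (2 * y + 1) ^ 2 = 4 * (y ^ 2 + y) + 1 := by ring
          rw [this]; omega
      exact this _
    have := Nat.div_add_mod ((g + (j + 1)) ^ 2) 4
    omega
  generalize (g + (j + 1)) ^ 2 / 4 = N at *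
  generalize g ^ 2 / 4 = S at *
  generalize g / 2 = H at *
  zify at *
  -- 4 g D ≤ upper bound
  have h1 : (4 : ℤ) * D ≤ g ^ 3 + 2 * (j + 1) * g ^ 2 + 4 * g * ((j + 1) * (j + 2))
      + 2 * ((j + 1) * j) * g + 4 * (j * ((j + 1) * (j + 2))) := by
    have a1 : (4 : ℤ) * (g * S) ≤ g ^ 3 := by nlinarith
    have a2 : (4 : ℤ) * (2 * ((j + 1) * S)) ≤ 2 * (j + 1) * g ^ 2 := by nlinarith
    have a3 : (4 : ℤ) * (2 * (g * R)) ≤ 4 * g * ((j + 1) * (j + 2)) := by nlinarith
    have a4 : (4 : ℤ) * ((j + 1) * j * H) ≤ 2 * ((j + 1) * j) * g := by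
      have : (0 : ℤ) ≤ (j + 1) * j := by positivity
      nlinarith
    have a5 : (4 : ℤ) * (2 * (j * R)) ≤ 4 * (j * ((j + 1) * (j + 2))) := by nlinarith
    nlinarith
  have h2 : (4 : ℤ) * (g * D) < (g + (j + 1)) ^ 2 * ((g + (j + 1)) ^ 2 - 1) := by
    have hg0 : (0 : ℤ) ≤ g := by positivity
    have h3 := mul_le_mul_of_nonneg_left h1 hg0
    have hj0 : (0 : ℤ) ≤ j := by positivity
    obtain ⟨x, hx⟩ : ∃ x : ℤ, (g : ℤ) = x + 3 := ⟨g - 3, by ring⟩
    have hx0 : 0 ≤ x := by linarith
    rw [hx] at h3 ⊢
    have : (x + 3) * ((x + 3) ^ 3 + 2 * (j + 1) * (x + 3) ^ 2 + 4 * (x + 3) * ((j + 1) * (j + 2))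
      + 2 * ((j + 1) * j) * (x + 3) + 4 * (j * ((j + 1) * (j + 2)))) <
      (x + 3 + (j + 1)) ^ 2 * ((x + 3 + (j + 1)) ^ 2 - 1) := by
      have e : (x + 3 + (j + 1)) ^ 2 * ((x + 3 + (j + 1)) ^ 2 - 1) - 
        (x + 3) * ((x + 3) ^ 3 + 2 * (j + 1) * (x + 3) ^ 2 + 4 * (x + 3) * ((j + 1) * (j + 2))
        + 2 * ((j + 1) * j) * (x + 3) + 4 * (j * ((j + 1) * (j + 2)))) = 
        2 * (x + 3) ^ 3 * (j + 1) + (j + 1) ^ 4 - 2 * (x + 3) ^ 2 * (j + 1) + 2 * (x + 3) * (j + 1)
          - (x + 3) ^ 2 - (j + 1) ^ 2 := by ring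
      have e2 : 2 * (x + 3) ^ 3 * (j + 1) + (j + 1) ^ 4 - 2 * (x + 3) ^ 2 * (j + 1) 
          + 2 * (x + 3) * (j + 1) - (x + 3) ^ 2 - (j + 1) ^ 2 > 0 := by
        have p1 : (0 : ℤ) ≤ x * j := by positivity
        have p2 : (0 : ℤ) ≤ x ^ 2 * j := by positivity
        have p3 : (0 : ℤ) ≤ x ^ 3 * j := by positivity
        have p4 : (0 : ℤ) ≤ x ^ 3 := by positivity
        have p5 : (0 : ℤ) ≤ x ^ 2 := by positivity
        have p6 : (0 : ℤ) ≤ (j : ℤ) ^ 4 := by positivity
        have p7 : (0 : ℤ) ≤ (j : ℤ) ^ 3 := by positivity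
        have p8 : (0 : ℤ) ≤ (j : ℤ) ^ 2 := by positivity
        nlinarith
      linarith
    linarith
  nlinarith

section main

variable {V : Type u} [Fintype V] [DecidableEq V] {G : SimpleGraph V}

/-- main counting bound -/
lemma sum_bound (hG : G.Connected) {g : ℕ} [NeZero g] (c : ZMod g → V)
    (hinj : Function.Injective c) (hc : ∀ i, G.Adj (c i) (c (i + 1))) :
    ∃ k R : ℕ, Fintype.card V = g + k ∧ 2 * R ≤ k * (k + 1) ∧
      ∑ a : V, ∑ b : V, G.dist a b ≤ g * (g ^ 2 / 4) + 2 * (k * (g ^ 2 / 4) + g * R)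
        + k * (k - 1) * (g / 2) + 2 * ((k - 1) * R) := by
  classical
  set S : Finset V := Finset.univ.image c with hS
  set T : Finset V := Finset.univ \ S with hT
  have hScard : S.card = g := by
    rw [hS, Finset.card_image_of_injective _ hinj, Finset.card_univ, ZMod.card]
  have hTcard : Fintype.card V = g + T.card := by
    rw [hT, Finset.card_sdiff_of_subset (Finset.subset_univ _), hScard, Finset.card_univ]
    have := Finset.card_le_univ S
    omega
  -- distance to the cycle
  have hex : ∀ v : V, ∃ a : ZMod g, ∀ b : ZMod g, G.dist (c a) v ≤ G.dist (c b) v := by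
    intro v
    obtain ⟨a, _, ha⟩ := Finset.exists_min_image (Finset.univ : Finset (ZMod g))
      (fun a => G.dist (c a) v) ⟨0, Finset.mem_univ _⟩
    exact ⟨a, fun b => ha b (Finset.mem_univ _)⟩
  choose s hs using hex
  set r : V → ℕ := fun v => G.dist (c (s v)) v with hr
  have hr1 : ∀ v ∈ T, 1 ≤ r v := by
    intro v hv
    have hne : c (s v) ≠ v := by
      intro h
      rw [hT, Finset.mem_sdiff] at hv
      exact hv.2 (by rw [hS, ← h]; exact Finset.mem_image_of_mem _ (Finset.mem_univ _))
    exact hG.pos_dist_of_ne hne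
  have hr2 : ∀ v ∈ T, 2 ≤ r v → ∃ w ∈ T, r w + 1 = r v := by
    intro v hv h2
    obtain ⟨p, hp⟩ := hG.exists_walk_length_eq_dist v (c (s v))
    rw [SimpleGraph.dist_comm] at hp
    change p.length = r v at hp
    obtain ⟨w, hadj, q, hq⟩ : ∃ (w : V) (_ : G.Adj v w) (q : G.Walk w (c (s v))),
        q.length + 1 = p.length := by
      clear_value r
      generalize c (s v) = z at p hp
      cases p with
      | nil => simp at hp; omega
      | @cons _ w _ hadj q => exact ⟨w, hadj, q, by simp⟩
    · rw [← hq] at hp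
      have hle : r w ≤ q.length := by
        have h1 : r w ≤ G.dist (c (s v)) w := hs w (s v)
        have h2 : G.dist (c (s v)) w ≤ q.length := by
          rw [SimpleGraph.dist_comm]; exact dist_le q
        omega
      have hge : r v ≤ r w + 1 := by
        have h1 : r v ≤ G.dist (c (s w)) v := hs v (s w)
        have h2 := hG.dist_triangle (u := c (s w)) (v := w) (w := v)
        have h3 : G.dist w v = 1 := dist_eq_one_iff_adj.mpr hadj.symm
        have h4 : r w = G.dist (c (s w)) w := rfl
        omega
      refine ⟨w, ?_, by omega⟩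
      rw [hT, Finset.mem_sdiff]
      refine ⟨Finset.mem_univ _, ?_⟩
      intro hw
      rw [hS, Finset.mem_image] at hw
      obtain ⟨b, _, hb⟩ := hw
      have : r w ≤ G.dist (c b) w := hs w b
      rw [hb, SimpleGraph.dist_self] at this
      omega
  have hR := sum_levels T r hr1 hr2
  set R := ∑ v ∈ T, r v with hRdef
  refine ⟨T.card, R, hTcard, hR, ?_⟩
  -- sum over S
  have hsumS : ∀ f : V → ℕ, ∑ v ∈ S, f v = ∑ a : ZMod g, f (c a) := by
    intro f
    rw [hS, Finset.sum_image (fun a _ b _ h => hinj h)]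
  have hST : ∀ v ∈ T, ∑ a : ZMod g, G.dist (c a) v ≤ g ^ 2 / 4 + g * r v := by
    intro v _
    have h1 : ∀ a : ZMod g, G.dist (c a) v ≤ cyc (s v) a + r v := by
      intro a
      have h2 := hG.dist_triangle (u := c a) (v := c (s v)) (w := v)
      have h3 := dist_le_cyc hG c hc (s v) a
      rw [SimpleGraph.dist_comm] at h3
      have h4 : r v = G.dist (c (s v)) v := rfl
      omega
    refine (Finset.sum_le_sum (fun a _ => h1 a)).trans ?_
    rw [Finset.sum_add_distrib, sum_cyc_right, Finset.sum_const, Finset.card_univ, ZMod.card]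
    simp
  have hSTsum : ∑ v ∈ T, ∑ a : ZMod g, G.dist (c a) v ≤ T.card * (g ^ 2 / 4) + g * R := by
    refine (Finset.sum_le_sum hST).trans ?_
    rw [Finset.sum_add_distrib, Finset.sum_const, ← Finset.mul_sum]
    simp [hRdef]
  have hSS : ∑ a : ZMod g, ∑ b : ZMod g, G.dist (c a) (c b) ≤ g * (g ^ 2 / 4) := by
    have h1 : ∀ a : ZMod g, ∑ b : ZMod g, G.dist (c a) (c b) ≤ g ^ 2 / 4 := by
      intro a
      rw [← sum_cyc_right a]
      exact Finset.sum_le_sum (fun b _ => dist_le_cyc hG c hc a b)
    refine (Finset.sum_le_sum (fun a _ => h1 a)).trans ?_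
    simp
  have hTT : ∑ u ∈ T, ∑ v ∈ T, G.dist u v ≤ T.card * (T.card - 1) * (g / 2)
      + 2 * ((T.card - 1) * R) := by
    have h1 : ∀ u ∈ T, ∑ v ∈ T, G.dist u v ≤ (T.card - 1) * (g / 2) + ((T.card - 1) * r u)
        + (R - r u) := by
      intro u hu
      rw [← Finset.add_sum_erase T _ hu, SimpleGraph.dist_self, zero_add]
      have h2 : ∀ v ∈ T.erase u, G.dist u v ≤ g / 2 + r u + r v := by
        intro v _
        have h3 := hG.dist_triangle (u := u) (v := c (s u)) (w := v)
        have h4 := hG.dist_triangle (u := c (s u)) (v := c (s v)) (w := v)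
        have h5 := (dist_le_cyc hG c hc (s u) (s v)).trans (cyc_le_half _ _)
        have h6 : G.dist u (c (s u)) = r u := by rw [SimpleGraph.dist_comm]
        have h7 : G.dist (c (s v)) v = r v := rfl
        omega
      refine (Finset.sum_le_sum h2).trans ?_
      rw [Finset.sum_add_distrib, Finset.sum_const, Finset.card_erase_of_mem hu]
      have h8 : ∑ v ∈ T.erase u, r v = R - r u := by
        rw [hRdef, ← Finset.add_sum_erase T _ hu]
        simp
      rw [h8, smul_eq_mul, mul_add]
    refine (Finset.sum_le_sum h1).trans ?_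
    rw [Finset.sum_add_distrib, Finset.sum_add_distrib, Finset.sum_const, ← Finset.mul_sum]
    have h9 : ∑ u ∈ T, (R - r u) + R = T.card * R := by
      conv_lhs => rw [hRdef]
      rw [← hRdef, ← Finset.sum_add_distrib]
      have : ∀ u ∈ T, R - r u + r u = R := by
        intro u hu
        have := Finset.single_le_sum (f := r) (fun _ _ => Nat.zero_le _) hu
        rw [← hRdef] at this
        omega
      rw [Finset.sum_congr rfl this]
      simp
    have h10 : ∑ u ∈ T, (R - r u) = (T.card - 1) * R := by
      rw [Nat.sub_mul, one_mul]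
      omega
    rw [h10, ← hRdef, smul_eq_mul]
    nlinarith
  have hsplit : ∀ f : V → ℕ, ∑ v : V, f v = ∑ a : ZMod g, f (c a) + ∑ v ∈ T, f v := by
    intro f
    rw [← hsumS, hT, add_comm, Finset.sum_sdiff (Finset.subset_univ S)]
  have htotal : ∑ a : V, ∑ b : V, G.dist a b = ∑ a : ZMod g, ∑ b : ZMod g, G.dist (c a) (c b)
      + 2 * ∑ v ∈ T, ∑ a : ZMod g, G.dist (c a) v + ∑ u ∈ T, ∑ v ∈ T, G.dist u v := by
    rw [hsplit]
    simp_rw [hsplit (fun b => G.dist _ b)]
    rw [Finset.sum_add_distrib, Finset.sum_add_distrib, Finset.sum_comm (s := Finset.univ) (t := T)]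
    have : ∑ v ∈ T, ∑ a : ZMod g, G.dist v (c a) = ∑ v ∈ T, ∑ a : ZMod g, G.dist (c a) v := by
      apply Finset.sum_congr rfl
      intro v _
      apply Finset.sum_congr rfl
      intro a _
      exact SimpleGraph.dist_comm
    rw [this]
    ring
  rw [htotal]
  nlinarith

/-- the integral form of the theorem -/
lemma key (hG : G.Connected) (hcyc : ¬ G.IsAcyclic) :
    G.girth * (∑ a : V, ∑ b : V, G.dist a b) ≤
      Fintype.card V ^ 2 * (Fintype.card V ^ 2 / 4) ∧
    (G.girth * (∑ a : V, ∑ b : V, G.dist a b) =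
      Fintype.card V ^ 2 * (Fintype.card V ^ 2 / 4) ↔
      Nonempty (G ≃g cycleGraph (Fintype.card V))) := by
  have hparam := exists_cycle_param hcyc
  have h3 := hparam.1
  obtain ⟨m, hm⟩ : ∃ m, G.girth = m + 3 := ⟨G.girth - 3, by omega⟩
  rw [hm] at hparam
  obtain ⟨-, c, hinj, hc⟩ := hparam
  have hcardle : m + 3 ≤ Fintype.card V := by
    have := Fintype.card_le_of_injective c hinj
    rwa [ZMod.card] at this
  have hiso : Nonempty (G ≃g cycleGraph (Fintype.card V)) → Fintype.card V ≤ G.girth := by
    rintro ⟨f⟩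
    obtain ⟨l, hl⟩ : ∃ l, Fintype.card V = l + 3 := ⟨Fintype.card V - 3, by omega⟩
    rw [hl] at f
    have hgir := f.girth_eq
    have hcyc' : ¬ (cycleGraph (l + 3)).IsAcyclic := by
      intro h
      have := girth_eq_zero.mpr h
      omega
    obtain ⟨a, w, hw, hwl⟩ := exists_girth_eq_length.mpr hcyc'
    have := le_length_of_isCycle_cycleGraph w hw
    omega
  obtain ⟨k, R, hk, hR, hD⟩ := sum_bound hG c hinj hc
  rw [hm] at hiso ⊢
  rcases Nat.eq_zero_or_pos k with hk0 | hkpos
  · -- the cycle is Hamiltonian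
    subst hk0
    have hR0 : R = 0 := by omega
    subst hR0
    simp only [Nat.add_zero, zero_mul, mul_zero] at hk hD
    rw [hk]
    have hbij : Function.Bijective c := by
      rw [Fintype.bijective_iff_injective_and_card]
      exact ⟨hinj, by rw [ZMod.card, hk]⟩
    have hDeq : ∑ a : V, ∑ b : V, G.dist a b
        = ∑ a : ZMod (m + 3), ∑ b : ZMod (m + 3), G.dist (c a) (c b) := by
      rw [← (Equiv.ofBijective c hbij).sum_comp]
      apply Finset.sum_congr rfl
      intro a _
      rw [← (Equiv.ofBijective c hbij).sum_comp]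
      rfl
    have hcycsum : ∑ a : ZMod (m + 3), ∑ b : ZMod (m + 3), cyc a b
        = (m + 3) * ((m + 3) ^ 2 / 4) := by
      simp_rw [sum_cyc_right]
      simp
    refine ⟨?_, ?_, ?_⟩
    · calc (m + 3) * (∑ a : V, ∑ b : V, G.dist a b)
          ≤ (m + 3) * ((m + 3) * ((m + 3) ^ 2 / 4)) := Nat.mul_le_mul_left _ hD
        _ = (m + 3) ^ 2 * ((m + 3) ^ 2 / 4) := by ring
    · intro heq
      have h1 : ∑ a : ZMod (m + 3), ∑ b : ZMod (m + 3), G.dist (c a) (c b)
          = ∑ a : ZMod (m + 3), ∑ b : ZMod (m + 3), cyc a b := by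
        rw [← hDeq, hcycsum]
        have h2 : (m + 3) * (∑ a : V, ∑ b : V, G.dist a b)
            = (m + 3) * ((m + 3) * ((m + 3) ^ 2 / 4)) := by
          rw [heq]; ring
        exact Nat.eq_of_mul_eq_mul_left (by omega) h2
      have h2 : ∀ a b : ZMod (m + 3), G.dist (c a) (c b) = cyc a b := by
        have h3 := (Finset.sum_eq_sum_iff_of_le (fun a _ =>
          Finset.sum_le_sum (fun b _ => dist_le_cyc hG c hc a b))).mp h1
        intro a b
        have h4 := h3 a (Finset.mem_univ _)
        exact (Finset.sum_eq_sum_iff_of_le (fun b _ => dist_le_cyc hG c hc a b)).mp h4 b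
          (Finset.mem_univ _)
      have hF : Fact (1 < m + 3) := ⟨by omega⟩
      let e : Fin (m + 3) ≃ V := Equiv.ofBijective c hbij
      refine ⟨RelIso.symm ⟨e, ?_⟩⟩
      intro a b
      have h5 : G.Adj (e a) (e b) ↔ cyc (g := m + 3) a b = 1 := by
        rw [← dist_eq_one_iff_adj]
        have : G.dist (e a) (e b) = cyc (g := m + 3) a b := h2 a b
        rw [this]
      rw [h5, ← dist_cycleGraph, dist_eq_one_iff_adj]
    · rintro ⟨f⟩
      have h1 : ∀ a b : V, G.dist a b = (cycleGraph (m + 3)).dist (f a) (f b) := by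
        intro a b
        apply le_antisymm
        · obtain ⟨p, hp⟩ := (cycleGraph_connected (n := m + 2)).exists_walk_length_eq_dist
            (f a) (f b)
          have := dist_le ((p.map f.symm.toHom).copy (f.symm_apply_apply a)
            (f.symm_apply_apply b))
          rw [← hp]
          simpa using this
        · obtain ⟨p, hp⟩ := hG.exists_walk_length_eq_dist a b
          have := dist_le (p.map f.toHom)
          rw [← hp]
          simpa using this
      have h2 : ∑ a : V, ∑ b : V, G.dist a b
          = ∑ a : ZMod (m + 3), ∑ b : ZMod (m + 3), cyc a b := by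
        calc ∑ a : V, ∑ b : V, G.dist a b
            = ∑ a : V, ∑ b : V, (cycleGraph (m + 3)).dist (f.toEquiv a) (f.toEquiv b) := by
              apply Finset.sum_congr rfl
              intro a _
              apply Finset.sum_congr rfl
              intro b _
              exact h1 a b
          _ = ∑ x : Fin (m + 3), ∑ b : V, (cycleGraph (m + 3)).dist x (f.toEquiv b) :=
              f.toEquiv.sum_comp (fun x => ∑ b : V, (cycleGraph (m + 3)).dist x (f.toEquiv b))
          _ = ∑ x : Fin (m + 3), ∑ y : Fin (m + 3), (cycleGraph (m + 3)).dist x y := by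
              apply Finset.sum_congr rfl
              intro x _
              exact f.toEquiv.sum_comp (fun y => (cycleGraph (m + 3)).dist x y)
          _ = ∑ a : ZMod (m + 3), ∑ b : ZMod (m + 3), cyc a b := by
              apply Finset.sum_congr rfl
              intro a _
              apply Finset.sum_congr rfl
              intro b _
              exact dist_cycleGraph _ _
      rw [h2, hcycsum]
      ring
  · have hlt := numeric (m + 3) k R _ (by omega) hkpos hR hD
    rw [← hk] at hlt
    refine ⟨hlt.le, ?_, ?_⟩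
    · intro h
      exact absurd h hlt.ne
    · intro h
      have := hiso h
      omega

end main

/-- The bound: `n ^ 3 / (4 (n - 1))` for even `n` and `(n ^ 2 + n) / 4` for odd `n`. -/
noncomputable def cycleValue (n : ℕ) : ℝ :=
  if Even n then (n : ℝ) ^ 3 / (4 * ((n : ℝ) - 1)) else ((n : ℝ) ^ 2 + n) / 4

/-- For every connected finite graph with a cycle, average distance times girth is at most the value
at the cycle graph on the same number of vertices, with equality exactly for the cycle graph. -/
theorem result {V : Type u} [Fintype V] [DecidableEq V] (G : SimpleGraph V)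
    (hG : G.Connected) (hcyc : ¬ G.IsAcyclic) :
    avgDist G * (G.girth : ℝ) ≤ cycleValue (Fintype.card V) ∧
    (avgDist G * (G.girth : ℝ) = cycleValue (Fintype.card V) ↔
      Nonempty (G ≃g cycleGraph (Fintype.card V))) := by
  obtain ⟨h1, h2⟩ := key hG hcyc
  have h3 : 3 ≤ Fintype.card V := by
    obtain ⟨h3, c, hinj, -⟩ := exists_cycle_param hcyc
    have : NeZero G.girth := ⟨by omega⟩
    have := Fintype.card_le_of_injective c hinj
    rw [ZMod.card] at this
    omega
  rw [← h2]
  have hsum := sum_dist_eq G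
  set D := ∑ a : V, ∑ b : V, G.dist a b with hD
  set n := Fintype.card V with hn
  set g := G.girth with hg
  set P := ∑ e : Sym2 V with ¬ e.IsDiag, pairDist G e with hP
  have hn3 : (3 : ℝ) ≤ n := by exact_mod_cast h3
  have hpos : (0 : ℝ) < n * (n - 1) := by nlinarith
  have hn1 : (n : ℝ) - 1 ≠ 0 := by linarith
  have hn0 : (n : ℝ) ≠ 0 := by linarith
  have havg : avgDist G * (g : ℝ) = ((g * D : ℕ) : ℝ) / (n * (n - 1)) := by
    unfold avgDist
    rw [hsum]
    push_cast
    rw [← hn]
    field_simp
    rw [hP]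
    push_cast
    ring
  have hval : cycleValue n = ((n ^ 2 * (n ^ 2 / 4) : ℕ) : ℝ) / (n * (n - 1)) := by
    unfold cycleValue
    split_ifs with hev
    · obtain ⟨l, hl⟩ := hev
      have e1 : n ^ 2 / 4 = l ^ 2 := by
        rw [hl]
        have : (l + l) ^ 2 = l ^ 2 * 4 := by ring
        rw [this]
        exact Nat.mul_div_cancel _ (by norm_num)
      rw [e1]
      have e2 : (n : ℝ) = 2 * l := by rw [hl]; push_cast; ring
      push_cast
      have e3 : (l : ℝ) = n / 2 := by linarith
      rw [e3]
      field_simp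
      ring
    · rw [Nat.not_even_iff_odd] at hev
      obtain ⟨l, hl⟩ := hev
      have e1 : n ^ 2 / 4 = l ^ 2 + l := by
        rw [hl]
        have : (2 * l + 1) ^ 2 = (l ^ 2 + l) * 4 + 1 := by ring
        rw [this]
        omega
      rw [e1]
      have e2 : (n : ℝ) = 2 * l + 1 := by rw [hl]; push_cast; ring
      push_cast
      have e3 : (l : ℝ) = (n - 1) / 2 := by linarith
      rw [e3]
      field_simp
      ring
  rw [havg, hval]
  constructor
  · apply div_le_div_of_nonneg_right _ hpos.le
    exact_mod_cast h1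
  · rw [div_left_inj' hpos.ne']
    exact Nat.cast_inj

end Pool.Agent.Lib.MP_0edf05_co.CycleProductBound
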